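import Pool.Agent.KS7_39.B5D.Q119.VS.Main
import Pool.Agent.KS7_39.B5D.Helper555.Tau.P_finite_unions
import Pool.Agent.KS7_39.B5D.Inj

set_option autoImplicit false

open Finset Module Filter

namespace Pool.Agent.Results.MP_b5ddc9_co.LinearInColours

/-- The colouring `χ` of `𝔽₂ⁿ` (the value at `0` is irrelevant) has a `k`-dimensional subspace
that is monochromatic in colour `i`: every nonzero vector of it has colour `i`. -/
def Mono {n r : ℕ} (χ : (Fin n → ZMod 2) → Fin r) (k : ℕ) (i : Fin r) : Prop :=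
  ∃ V : Submodule (ZMod 2) (Fin n → ZMod 2), finrank (ZMod 2) V = k ∧ ∀ v ∈ V, v ≠ 0 → χ v = i

/-- Every colouring of the nonzero vectors of `𝔽₂ⁿ` with the `r` colours `0, …, r - 1` has a
`2`-dimensional monochromatic subspace in one of the first `r - 1` colours, or a `d`-dimensional
monochromatic subspace in the last colour `r - 1`. -/
def Arrows (r d n : ℕ) : Prop :=
  ∀ χ : (Fin n → ZMod 2) → Fin r,
    (∃ i : Fin r, (i : ℕ) + 1 < r ∧ Mono χ 2 i) ∨ (∃ i : Fin r, (i : ℕ) + 1 = r ∧ Mono χ d i)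

/-- The Ramsey number: the least `n` with `Arrows r d n`. -/
noncomputable def R (r d : ℕ) : ℕ := sInf {n | Arrows r d n}

/-- the indicator vector of a finite set -/
def vec (n : ℕ) (S : Finset ℕ) : Fin n → ZMod 2 := fun i => if (i : ℕ) ∈ S then 1 else 0

lemma vec_biUnion (n : ℕ) (F : ℕ → Finset ℕ) (I : Finset ℕ)
    (hF : ∀ i ∈ I, ∀ j ∈ I, i ≠ j → Disjoint (F i) (F j)) :
    vec n (I.biUnion F) = ∑ i ∈ I, vec n (F i) := by
  classical
  funext x
  rw [Finset.sum_apply]
  simp only [vec]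
  rw [← Finset.sum_filter]
  by_cases hx : (x : ℕ) ∈ I.biUnion F
  · rw [if_pos hx]
    obtain ⟨i, hi, hxi⟩ := Finset.mem_biUnion.1 hx
    have : I.filter (fun i => (x : ℕ) ∈ F i) = {i} := by
      ext j
      rw [Finset.mem_filter, Finset.mem_singleton]
      constructor
      · rintro ⟨hj, hxj⟩
        by_contra hne
        exact Finset.disjoint_left.1 (hF j hj i hi hne) hxj hxi
      · rintro rfl
        exact ⟨hi, hxi⟩
    rw [this, Finset.sum_singleton]
  · rw [if_neg hx]
    have : I.filter (fun i => (x : ℕ) ∈ F i) = ∅ := by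
      ext j
      simp only [Finset.mem_filter, Finset.notMem_empty, iff_false, not_and]
      intro hj hxj
      exact hx (Finset.mem_biUnion.2 ⟨j, hj, hxj⟩)
    rw [this, Finset.sum_empty]

lemma block_lt {F : ℕ → Finset ℕ} (hne : ∀ i, (F i).Nonempty)
    (hF : ∀ i, ∀ x ∈ F i, ∀ y ∈ F (i + 1), x < y) {i j : ℕ} (hij : i < j) :
    ∀ x ∈ F i, ∀ y ∈ F j, x < y := by
  induction j, hij using Nat.le_induction with
  | base => exact hF i
  | succ j hj ih =>
    intro x hx y hy
    obtain ⟨z, hz⟩ := hne j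
    exact (ih x hx z hz).trans (hF j z hz y hy)

lemma block_disjoint {F : ℕ → Finset ℕ} (hne : ∀ i, (F i).Nonempty)
    (hF : ∀ i, ∀ x ∈ F i, ∀ y ∈ F (i + 1), x < y) {i j : ℕ} (hij : i ≠ j) :
    Disjoint (F i) (F j) := by
  rw [Finset.disjoint_left]
  intro x hx hy
  rcases lt_or_gt_of_ne hij with h | h
  · exact lt_irrefl _ (block_lt hne hF h x hx x hy)
  · exact lt_irrefl _ (block_lt hne hF h x hy x hx)

/-- The Ramsey number is finite. -/
theorem arrows_nonempty (r d : ℕ) (hr : 1 ≤ r) : {n | Arrows r d n}.Nonempty := by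
  classical
  by_contra hemp
  have hall : ∀ n, ∃ χ : (Fin n → ZMod 2) → Fin r,
      (∀ i : Fin r, (i : ℕ) + 1 < r → ¬ Mono χ 2 i) ∧
      (∀ i : Fin r, (i : ℕ) + 1 = r → ¬ Mono χ d i) := by
    intro n
    by_contra h
    apply hemp
    refine ⟨n, ?_⟩
    intro χ
    by_contra h2
    push Not at h2
    exact h ⟨χ, h2.1, h2.2⟩
  choose χ h2 hd using hall
  -- the limit colouring
  have hlim : ∀ S : Finset ℕ, ∃ c : Fin r, ∀ᶠ n in (hyperfilter ℕ : Filter ℕ),
      χ n (vec n S) = c := by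
    intro S
    obtain ⟨c, hc⟩ := Ultrafilter.eq_pure_of_finite
      ((hyperfilter ℕ).map (fun n => χ n (vec n S)))
    refine ⟨c, ?_⟩
    have : ({c} : Set (Fin r)) ∈ (hyperfilter ℕ).map (fun n => χ n (vec n S)) := by
      rw [hc]
      exact Ultrafilter.mem_pure.2 rfl
    exact this
  choose lim hlim using hlim
  obtain ⟨F, hne, hblock, c, hc⟩ := B5D39.Tau.finite_unions lim
  -- a large dimension
  have key : ∀ k : ℕ, ∃ n, Mono (χ n) k c := by
    intro k
    have hev : ∀ᶠ n in (hyperfilter ℕ : Filter ℕ), ∀ I ∈ (Finset.range k).powerset.erase ∅,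
        χ n (vec n (I.biUnion F)) = c := by
      rw [Filter.eventually_all_finset]
      intro I hI
      have hI' : I.Nonempty := Finset.nonempty_iff_ne_empty.2 (Finset.mem_erase.1 hI).1
      have := hlim (I.biUnion F)
      rw [hc I hI'] at this
      exact this
    have hlarge : ∀ᶠ n in (hyperfilter ℕ : Filter ℕ), ∀ x ∈ (Finset.range k).biUnion F, x < n := by
      rw [Filter.eventually_all_finset]
      intro x _
      apply Filter.Eventually.filter_mono Nat.hyperfilter_le_atTop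
      exact Filter.eventually_gt_atTop x
    obtain ⟨n, hn1, hn2⟩ := (hev.and hlarge).exists
    refine ⟨n, ?_⟩
    have hpick : ∀ i : Fin k, ∃ x : Fin n, (x : ℕ) ∈ F i := by
      intro i
      obtain ⟨x, hx⟩ := hne i
      exact ⟨⟨x, hn2 x (Finset.mem_biUnion.2 ⟨i, Finset.mem_range.2 i.2, hx⟩)⟩, hx⟩
    choose x hx using hpick
    have hli : LinearIndependent (ZMod 2) (fun i : Fin k => vec n (F i)) := by
      rw [Fintype.linearIndependent_iff]
      intro g hg i
      have h1 := congrFun hg (x i)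
      rw [Finset.sum_apply, Finset.sum_eq_single i] at h1
      · simpa [vec, hx i] using h1
      · intro j _ hji
        have : (x i : ℕ) ∉ F j := by
          intro hmem
          have hne' : (j : ℕ) ≠ (i : ℕ) := fun h => hji (Fin.ext h)
          exact Finset.disjoint_left.1 (block_disjoint hne hblock hne') hmem (hx i)
        simp [vec, this]
      · intro h
        exact absurd (Finset.mem_univ i) h
    refine ⟨Submodule.span (ZMod 2) (Set.range (fun i : Fin k => vec n (F i))), ?_, ?_⟩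
    · rw [finrank_span_eq_card hli, Fintype.card_fin]
    · intro v hv hv0
      rw [Submodule.mem_span_range_iff_exists_fun] at hv
      obtain ⟨g, rfl⟩ := hv
      set I : Finset (Fin k) := Finset.univ.filter (fun i => g i ≠ 0) with hI
      have hg1 : ∀ i, g i = if g i ≠ 0 then 1 else 0 := by
        intro i
        generalize g i = a
        revert a
        decide
      have hsum : ∑ i, g i • vec n (F i) = vec n ((I.map Fin.valEmbedding).biUnion F) := by
        rw [vec_biUnion]
        · rw [Finset.sum_map, hI, Finset.sum_filter]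
          apply Finset.sum_congr rfl
          intro i _
          by_cases h : g i = 0
          · rw [h, if_neg (by simp), zero_smul]
          · rw [if_pos h]
            have h1 : g i = 1 := by rw [hg1 i, if_pos h]
            rw [h1, one_smul]
            rfl
        · intro i _ j _ hij
          exact block_disjoint hne hblock hij
      rw [hsum]
      apply hn1
      rw [Finset.mem_erase, Finset.mem_powerset]
      constructor
      · intro hemp
        rw [Finset.map_eq_empty] at hemp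
        apply hv0
        apply Finset.sum_eq_zero
        intro i _
        have : i ∉ I := by rw [hemp]; simp
        rw [hI, Finset.mem_filter] at this
        have hgi : g i = 0 := by
          by_contra h
          exact this ⟨Finset.mem_univ _, h⟩
        rw [hgi, zero_smul]
      · intro i hi
        obtain ⟨j, _, rfl⟩ := Finset.mem_map.1 hi
        exact Finset.mem_range.2 j.2
  have hcr : (c : ℕ) + 1 < r ∨ (c : ℕ) + 1 = r := by
    have := c.2
    omega
  rcases hcr with h | h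
  · obtain ⟨n, hn⟩ := key 2
    exact h2 n c h hn
  · obtain ⟨n, hn⟩ := key d
    exact hd n c h hn

lemma not_arrows {r s d q k n : ℕ} (hr : r = s + 1) (hs : 1 ≤ s) (hq : 10 ≤ q)
    (hk : k + (q + (d + 1) / 2) = d + 1) (hk1 : 1 ≤ k) (hpow : d * d ≤ 2 ^ (q - 10))
    (hn : n * d < d * (d - 1) + s * (k * (k - 1))) : ¬ Arrows r d n := by
  classical
  intro h
  obtain ⟨A, hA0, hA1, hA2⟩ := B5D39.VS.exists_sumfree (n := d) (d := q + (d + 1) / 2) (m := q)
    hq (by omega) (by omega) (le_trans (Nat.mul_le_mul_left d (by omega)) hpow)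
  refine absurd (B5D39.count (s := s) (d := d) (k := k) (n := n) ?_) (not_le.2 hn)
  intro π
  rcases h (fun v => if hv : ∃ i : Fin s, (π i).mulVec v ∈ A then
      ⟨(hv.choose : ℕ), by have := hv.choose.2; omega⟩ else ⟨s, by omega⟩) with
    ⟨i, hi, V, hV, hmono⟩ | ⟨i, hi, V, hV, hmono⟩
  · exfalso
    have his : (i : ℕ) < s := by omega
    have hsub : ∀ v ∈ V, v ≠ 0 → (π ⟨i, his⟩).mulVec v ∈ A := by
      intro v hv hv0
      have h1 := hmono v hv hv0
      beta_reduce at h1
      by_cases hex : ∃ i : Fin s, (π i).mulVec v ∈ A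
      · rw [dif_pos hex] at h1
        have h2' : (hex.choose : ℕ) = (i : ℕ) := congrArg Fin.val h1
        have h2 : hex.choose = ⟨i, his⟩ := Fin.ext h2'
        rw [← h2]
        exact hex.choose_spec
      · rw [dif_neg hex] at h1
        have h2 : s = (i : ℕ) := congrArg Fin.val h1
        omega
    obtain ⟨b, hb⟩ : ∃ b : Basis (Fin 2) (ZMod 2) V, True :=
      ⟨Module.finBasisOfFinrankEq (ZMod 2) V hV, trivial⟩
    have h0 : (b 0 : Fin n → ZMod 2) ≠ 0 := by
      intro h0
      exact b.ne_zero 0 (Subtype.ext h0)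
    have h1 : (b 1 : Fin n → ZMod 2) ≠ 0 := by
      intro h0
      exact b.ne_zero 1 (Subtype.ext h0)
    have hs0 : (b 0 : Fin n → ZMod 2) + b 1 ≠ 0 := by
      intro h0
      have h01 : (b 0 : Fin n → ZMod 2) ≠ b 1 := by
        intro h0
        have := b.injective (Subtype.ext h0)
        exact absurd this (by decide)
      apply h01
      have h3 : (b 0 : Fin n → ZMod 2) = - b 1 := eq_neg_of_add_eq_zero_left h0
      rw [h3]
      funext x
      simp only [Pi.neg_apply, ZMod.neg_eq_self_mod_two]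
    have e0 := hsub _ (b 0).2 h0
    have e1 := hsub _ (b 1).2 h1
    have e2 := hsub _ (V.add_mem (b 0).2 (b 1).2) hs0
    rw [Matrix.mulVec_add] at e2
    refine hA1 _ e0 _ e1 ?_ e2
    intro he
    rw [he] at e2
    apply hA0
    have hz : (π ⟨i, his⟩).mulVec (b 1 : Fin n → ZMod 2) +
        (π ⟨i, his⟩).mulVec (b 1 : Fin n → ZMod 2) = 0 := by
      funext x
      exact CharTwo.add_self_eq_zero _
    rwa [hz] at e2
  · refine B5D39.frames hk (A : Set (Fin d → ZMod 2)) hA2 π V hV ?_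
    intro v hv j hj
    have hv0 : v ≠ 0 := by
      rintro rfl
      rw [Matrix.mulVec_zero] at hj
      exact hA0 hj
    have h1 := hmono v hv hv0
    beta_reduce at h1
    have hex : ∃ i : Fin s, (π i).mulVec v ∈ A := ⟨j, hj⟩
    rw [dif_pos hex] at h1
    have h2 : (hex.choose : ℕ) = (i : ℕ) := congrArg Fin.val h1
    have h3 := hex.choose.2
    omega

lemma not_arrows_small {r d n : ℕ} (hr : 2 ≤ r) (hn : n < d) : ¬ Arrows r d n := by
  intro h
  rcases h (fun _ => ⟨r - 1, by omega⟩) with ⟨i, hi, V, hV, hmono⟩ | ⟨i, hi, V, hV, hmono⟩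
  · obtain ⟨b, hb⟩ : ∃ b : Basis (Fin 2) (ZMod 2) V, True :=
      ⟨Module.finBasisOfFinrankEq (ZMod 2) V hV, trivial⟩
    have h0 : (b 0 : Fin n → ZMod 2) ≠ 0 := by
      intro h0
      exact b.ne_zero 0 (Subtype.ext h0)
    have h1 : r - 1 = (i : ℕ) := congrArg Fin.val (hmono _ (b 0).2 h0)
    omega
  · have h1 := Submodule.finrank_le V
    rw [Module.finrank_fintype_fun_eq_card, Fintype.card_fin] at h1
    omega

/-- **Lower bound.** -/
theorem lower (r d : ℕ) (hr : 2 ≤ r) (hd : 2 ≤ d) :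
    (1 + ((r : ℝ) - 1) / 4) * d - ((r : ℝ) - 1) * (2 * Real.logb 2 d + 11) - 1 ≤ R r d := by
  have hd0 : (0 : ℝ) < d := by exact_mod_cast (by omega : 0 < d)
  have hd1 : (1 : ℝ) ≤ d := by exact_mod_cast (by omega : 1 ≤ d)
  have hlog : 0 ≤ Real.logb 2 d := Real.logb_nonneg (by norm_num) hd1
  set k := ⌈2 * Real.logb 2 d⌉₊ with hk
  have hk1 : 2 * Real.logb 2 d ≤ k := Nat.le_ceil _
  have hk2 : (k : ℝ) < 2 * Real.logb 2 d + 1 := Nat.ceil_lt_add_one (by linarith)
  have hpow : d * d ≤ 2 ^ k := by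
    have h1 : ((d : ℝ)) ^ 2 ≤ 2 ^ k := by
      have h2 : (2 : ℝ) ^ (2 * Real.logb 2 d) = (d : ℝ) ^ 2 := by
        rw [mul_comm, Real.rpow_mul (by norm_num), Real.rpow_logb (by norm_num) (by norm_num) hd0]
        norm_num
      rw [← h2, ← Real.rpow_natCast 2 k]
      exact Real.rpow_le_rpow_of_exponent_le (by norm_num) hk1
    rw [sq] at h1
    exact_mod_cast h1
  obtain ⟨s, rfl⟩ : ∃ s, r = s + 1 := ⟨r - 1, by omega⟩
  have hs1 : 1 ≤ s := by omega
  have hsr : (1 : ℝ) ≤ s := by exact_mod_cast hs1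
  have hcast : (((s + 1 : ℕ) : ℝ) - 1) = s := by push_cast; ring
  rw [hcast]
  have hmem : Arrows (s + 1) d (R (s + 1) d) := Nat.sInf_mem (arrows_nonempty (s + 1) d (by omega))
  have hRd : (d : ℝ) ≤ R (s + 1) d := by
    have : d ≤ R (s + 1) d := by
      by_contra hlt
      push Not at hlt
      exact not_arrows_small (by omega) hlt hmem
    exact_mod_cast this
  set q := k + 10 with hq
  have hqr : (q : ℝ) = k + 10 := by rw [hq]; push_cast; ring
  by_cases hbig : (d : ℝ) / 4 ≤ q
  · have h1 : (s : ℝ) * (d / 4) ≤ s * (2 * Real.logb 2 d + 11) := by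
      apply mul_le_mul_of_nonneg_left _ (by linarith)
      linarith
    linarith
  · push Not at hbig
    have hbig' : 4 * q < d := by
      have : (4 * q : ℝ) < d := by linarith
      exact_mod_cast this
    obtain ⟨κ, hκ⟩ : ∃ κ, κ + (q + (d + 1) / 2) = d + 1 := ⟨d + 1 - (q + (d + 1) / 2), by omega⟩
    have hκ1 : 1 ≤ κ := by omega
    have hnot := fun h => not_arrows (n := R (s + 1) d) rfl hs1 (by omega : 10 ≤ q) hκ hκ1
      (by rw [hq, Nat.add_sub_cancel]; exact hpow) h hmem
    have hge : d * (d - 1) + s * (κ * (κ - 1)) ≤ R (s + 1) d * d := by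
      by_contra hlt
      push Not at hlt
      exact hnot hlt
    have hκr : ((d : ℝ) + 1) / 2 - q ≤ κ := by
      have h1 : d + 1 ≤ 2 * κ + 2 * q := by omega
      have h2 : ((d + 1 : ℕ) : ℝ) ≤ ((2 * κ + 2 * q : ℕ) : ℝ) := by exact_mod_cast h1
      push_cast at h2
      linarith
    have hge' : (d : ℝ) * (d - 1) + s * (κ * (κ - 1)) ≤ R (s + 1) d * d := by
      have h1 : ((d * (d - 1) + s * (κ * (κ - 1)) : ℕ) : ℝ) ≤ ((R (s + 1) d * d : ℕ) : ℝ) := by
        exact_mod_cast hge
      push_cast [Nat.cast_sub (by omega : 1 ≤ d), Nat.cast_sub hκ1] at h1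
      exact h1
    have hq1 : (1 : ℝ) ≤ q := by rw [hqr]; linarith [Nat.cast_nonneg (α := ℝ) k]
    have hκ2 : (d : ℝ) ^ 2 / 4 - q * d ≤ (κ : ℝ) * (κ - 1) := by
      have h1 : 0 ≤ ((κ : ℝ) - (((d : ℝ) + 1) / 2 - q)) * ((κ : ℝ) + (((d : ℝ) + 1) / 2 - q) - 1) := by
        apply mul_nonneg
        · linarith
        · linarith
      nlinarith
    have h2 : (s : ℝ) * ((d : ℝ) ^ 2 / 4 - q * d) ≤ s * (κ * (κ - 1)) :=
      mul_le_mul_of_nonneg_left hκ2 (by linarith)
    have h3 : ((d : ℝ) - 1 + s * (d / 4 - q)) * d ≤ R (s + 1) d * d := by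
      calc ((d : ℝ) - 1 + s * (d / 4 - q)) * d
          = (d : ℝ) * (d - 1) + s * ((d : ℝ) ^ 2 / 4 - q * d) := by ring
        _ ≤ (d : ℝ) * (d - 1) + s * (κ * (κ - 1)) := by linarith
        _ ≤ _ := hge'
    have h4 : (d : ℝ) - 1 + s * (d / 4 - q) ≤ R (s + 1) d := le_of_mul_le_mul_right h3 hd0
    have h5 : (s : ℝ) * q ≤ s * (2 * Real.logb 2 d + 11) := by
      apply mul_le_mul_of_nonneg_left _ (by linarith)
      linarith
    linarith

/-- Main result: for every number `r ≥ 2` of colours the growth constant of `R^{(r)}(2; d)` in `d`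
is at least `1 + (r - 1)/4`; precisely
`R^{(r)}(2; d) ≥ (1 + (r - 1)/4) d - (r - 1) (2 log₂ d + 11) - 1` for all `r, d ≥ 2`.
For `r = 1000` the constant is `250 + 3/4`. The numbers are well defined (the defining sets are
nonempty). -/
theorem result :
    (∀ r d : ℕ, 2 ≤ r → 2 ≤ d → {n | Arrows r d n}.Nonempty) ∧
    (∀ r d : ℕ, 2 ≤ r → 2 ≤ d →
      (1 + ((r : ℝ) - 1) / 4) * d - ((r : ℝ) - 1) * (2 * Real.logb 2 d + 11) - 1 ≤ R r d) ∧
    (∀ r : ℕ, 2 ≤ r → ∀ ε : ℝ, 0 < ε →
      ∀ᶠ d : ℕ in atTop, (1 + ((r : ℝ) - 1) / 4 - ε) * (d : ℝ) ≤ R r d) ∧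
    (∀ ε : ℝ, 0 < ε → ∀ᶠ d : ℕ in atTop, (250 + 3 / 4 - ε) * (d : ℝ) ≤ R 1000 d) := by
  have main : ∀ r : ℕ, 2 ≤ r → ∀ ε : ℝ, 0 < ε →
      ∀ᶠ d : ℕ in atTop, (1 + ((r : ℝ) - 1) / 4 - ε) * (d : ℝ) ≤ R r d := by
    intro r hr ε hε
    have h1 : Tendsto (fun d : ℕ => (((r : ℝ) - 1) * (2 * Real.logb 2 d + 11) + 1) / (d : ℝ))
        atTop (nhds 0) := by
      have h2 : Tendsto (fun x : ℝ => Real.log x / x) atTop (nhds 0) :=
        Real.isLittleO_log_id_atTop.tendsto_div_nhds_zero
      have h3 : Tendsto (fun d : ℕ => Real.log (d : ℝ) / (d : ℝ)) atTop (nhds 0) :=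
        h2.comp tendsto_natCast_atTop_atTop
      have h4 : Tendsto (fun d : ℕ => (((r : ℝ) - 1) * 11 + 1) / (d : ℝ)) atTop (nhds 0) :=
        tendsto_const_div_atTop_nhds_zero_nat _
      have h5 := (h3.const_mul (((r : ℝ) - 1) * 2 / Real.log 2)).add h4
      rw [mul_zero, add_zero] at h5
      refine h5.congr ?_
      intro d
      rw [Real.logb]
      ring
    have h6 : ∀ᶠ d : ℕ in atTop,
        (((r : ℝ) - 1) * (2 * Real.logb 2 d + 11) + 1) / (d : ℝ) < ε :=
      h1.eventually (gt_mem_nhds hε)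
    filter_upwards [h6, eventually_ge_atTop 2] with d hd1 hd2
    have hd0 : (0 : ℝ) < d := by exact_mod_cast (by omega : 0 < d)
    rw [div_lt_iff₀ hd0] at hd1
    have := lower r d hr hd2
    linarith
  refine ⟨fun r d hr _ => arrows_nonempty r d (by omega), fun r d hr hd => lower r d hr hd, main, ?_⟩
  intro ε hε
  have h := main 1000 (by norm_num) ε hε
  filter_upwards [h] with d hd
  have e : (1 + (((1000 : ℕ) : ℝ) - 1) / 4 - ε) = 250 + 3 / 4 - ε := by norm_num
  rw [e] at hd
  exact hd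

end Pool.Agent.Results.MP_b5ddc9_co.LinearInColours
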